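import Mathlib
import Pool.Agent.W2helper49.CQ.Main

/-!
# Crouzeix-type bound for scaled `q`-numerical ranges: the parameters `|q| ≤ 1 / √2`

For every `n ≥ 2`, every complex `n × n` matrix `A`, every `q` with `0 < |q| ≤ 1 / √2` and every
complex polynomial `p` the bound of the problem holds, with the constant `c(q) = 1`.
-/

set_option autoImplicit false

open Polynomial

namespace Pool.Agent.Results.MP_16d611_an.SmallParameter

/-- The constant `c(q)` of the problem. -/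
noncomputable def c (q : ℂ) : ℝ := max 1 (2 * ‖q‖ / (1 + √(1 - ‖q‖ ^ 2)))

/-- Let `0 < |q| ≤ 1 / √2`. Then `c(q) = 1`, the values of `|p|` on `Ω_q` are bounded, and
`‖p(A)‖ ≤ sup |p|` over `Ω_q`, for every complex matrix `A` of size `n ≥ 2`. -/
theorem result (n : ℕ) (hn : 2 ≤ n) (A : Matrix (Fin n) (Fin n) ℂ) (q : ℂ) (hq0 : 0 < ‖q‖)
    (hq : ‖q‖ ≤ 1 / √2) (p : ℂ[X]) :
    c q = 1 ∧
    BddAbove (Set.range fun z : Pool.Agent.W2helper49.CQ.Omega A q => ‖p.eval (z : ℂ)‖) ∧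
    ‖Matrix.toEuclideanCLM (n := Fin n) (𝕜 := ℂ) (aeval A p)‖ ≤
      c q * ⨆ z : Pool.Agent.W2helper49.CQ.Omega A q, ‖p.eval (z : ℂ)‖ := by
  have hq2 : ‖q‖ ^ 2 ≤ 1 / 2 := by
    have h1 : ‖q‖ ^ 2 ≤ (1 / √2) ^ 2 := pow_le_pow_left₀ (norm_nonneg q) hq 2
    rwa [div_pow, one_pow, Real.sq_sqrt (by norm_num)] at h1
  have hc : c q = 1 := by
    have h1 : ‖q‖ ≤ √(1 - ‖q‖ ^ 2) := Real.le_sqrt_of_sq_le (by linarith)
    have h2 : ‖q‖ ≤ 1 := by nlinarith
    rw [c, max_eq_left]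
    rw [div_le_one (by positivity)]
    linarith
  have hb := Pool.Agent.W2helper49.CQ.bdd A q p
  refine ⟨hc, hb, ?_⟩
  rw [hc, one_mul]
  exact Pool.Agent.W2helper49.CQ.main hn A (norm_pos_iff.1 hq0) hq2 p _
    fun z hz => le_ciSup hb ⟨z, hz⟩

end Pool.Agent.Results.MP_16d611_an.SmallParameter
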